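import Mathlib
import Pool.Agent.N166.MU.Main

/-!
# The conjectures of Murre for products with almost all constant abelian varieties

Let `g i` (`i` in a finite set `I`) be positive integers, `r` an integer smaller than all the `g i`
and `E` a number field.  For a prime power `q` let `S i` be the set of the characteristic
polynomials of Frobenius of the ordinary abelian varieties of dimension `g i` over the field with `q`
elements, or of all abelian varieties of dimension `g i`, or any set in between.  By Weil, Honda and
Tate its elements correspond to the isogeny classes, the first set contains `ordinaryWeilPolys q
(g i)`, and the second one is contained in `weilPolys q (g i)`.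

For all families `f i` in `S i` with the exception of a proportion `O (q ^ (-1 / 6) log q)`, the
constant depending only on `g` and `E`, the following holds for all `s > 0`, all abelian varieties
`A` over the field `k` with `q ^ s` elements, isogenous to products of powers of abelian varieties
coming from the field with `q` elements with characteristic polynomials `f i`, and all smooth
projective varieties `Y` over `k` such that

* the eigenvalues of Frobenius on the cohomology of `Y` and their conjugates generate a group of
  rank at most `r` modulo the group of the numbers with a power in `E`;
* homologically trivial self-correspondences of `A × Y` are nilpotent, for instance `Y` is dominated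
  by a product of curves, or `Y` is a rational surface.

Let `K` be the function field of any variety `S` over `k`, let `Z` be a smooth projective
variety over `K` which is the generic fibre of a morphism `Y → S`, and let `A_K` be the constant
abelian variety over `K`. **Then the conjectures of Murre for `A_K × Z` and for `Z` are equivalent:**
there are products `D_j` of `c_j` divisor classes on `A_K` such that `CH^i(A_K × Z)` is the direct
sum of the `D_j × CH^(i - c_j)(Z)` (rational coefficients), the product of any Chow-Kunneth
decompositions of `A_K` and `Z` has the filtration `F^n CH^i(A_K × Z) = ⊕ D_j × F^n CH^(i-c_j)(Z)`,
and it satisfies the first half of (B), the second half of (B), or (D), if and only if the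
decomposition of `Z` does.

For `Z` of dimension at most two over the global (or any) function field `K`, Murre's decomposition
satisfies (B) and (D); so (A), (B) and (D) hold for `A_K × Z` unconditionally, of arbitrarily large
dimension. For `Z` a point (`Y = S`) this holds for the constant abelian varieties themselves, and
the filtration is `F^1 = 0`.

The idea of the proof: by a sieve (helper521) almost all families are such that each pair `α`,
`q / α` of roots can be exchanged by a Galois automorphism which fixes all the other roots and the
elements of `E`. By helper484 it follows that the Chow groups of `A × Y` are generated by the
`D_j × CH(Y)`. As the restriction to the generic fibre is surjective, the same holds for the Chow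
groups of `A_K × Z`. It follows that homologically trivial cycles on `A_K` itself vanish, so that all
Chow-Kunneth projectors of `A_K` act on the `D_j` as `0` or `1`.
-/

set_option autoImplicit false

namespace Pool.Agent.Results.MP_38de51_ag.ConstantAbelianFactors

open Polynomial Pool.Agent.W521.Descent Pool.Agent.W521.Count Pool.Agent.W484.TB
  Pool.Agent.W484.CK Pool.Agent.N166.MU

/-- `weilPolys q g` is the set of monic integral polynomials of degree `2 g` with constant term
`q ^ g` and all roots of absolute value `√q`; `ordinaryWeilPolys q g` is the subset of those
whose coefficient of index `g` is prime to `q`. -/
theorem result {I : Type} [Fintype I] (g : I → ℕ) (r : ℕ) (hr : ∀ i, r < g i)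
    (E : IntermediateField ℚ ℂ) [FiniteDimensional ℚ E] :
    ∃ C : ℝ, ∀ q : ℕ, IsPrimePow q → ∀ S : I → Set ℤ[X],
      (∀ i, ordinaryWeilPolys q (g i) ⊆ S i ∧ S i ⊆ weilPolys q (g i)) →
      (∀ i, (S i).Finite ∧ (S i).Nonempty) ∧
      ({f : I → ℤ[X] | (∀ i, f i ∈ S i) ∧ ¬ MurreForRankOver E q r f}.ncard : ℝ) ≤
        C * (Real.log q * (q : ℝ) ^ (-(1 / 6) : ℝ)) * ∏ i, ((S i).ncard : ℝ) :=
  count_of_goodU (splitPrimes E) (dense_splitPrimes E) g
    (fun i => (Nat.zero_le r).trans_lt (hr i)) (fun q f => MurreForRankOver E q r f)
    fun _ hq x hx => murreForRankOver_of_good g E hq.one_lt r hr x hx

end Pool.Agent.Results.MP_38de51_ag.ConstantAbelianFactors
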