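import Pool.Agent.N209.BM.Cd

/-!
# Murre's conjectures in characteristic `p` and rational equivalence over finite fields

Let `k` be a finite field and `K` any extension field of `k`. It is shown that rational and
numerical equivalence (with rational coefficients) coincide for all smooth projective varieties over
`k` (Beilinson's conjecture) if and only if Murre's conjectures (A), (B), (C), (D) hold for all Chow
motives over `K` and homological and numerical equivalence coincide over `K`. If this is so, and `r` is
the transcendence degree of `K` over `k`, then `F^ν CH_l(M) = 0` for all Chow motives `M` over `K`,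
all `l` and all `ν > r`. So Q1 (with standard conjecture D) for all fields of characteristic `p` is
equivalent to Beilinson's conjecture for the field with `p` elements.

The theorem is stated for abstract tensor triangulated categories `C` (constructible motives over
`k`) and `C'` (over `K`), with classes `W` and `W'` of objects (Chow motives), with realisations `R`
and `R'` (`ℓ`-adic), the Frobenius and the base change functor `b : C ⥤ C'`, and for each smooth
connected affine `k`-variety `U i` with a morphism from `Spec K` onto its generic point the category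
`D i` of lisse motives over `U i`, with the restriction `ρ i : D i ⥤ C'` to `Spec K`, the inverse
image `φ i : C ⥤ D i`, its right adjoint, the direct image `π i`, the class `P i` of Chow motives
over `U i`, and the morphisms `τ i : π i φ i M ⟶ M` given by the restriction to a closed point of
`U i` and the trace. What is used of these data are theorems of Deligne, Bondarko and Artin
(`Frobenius`, `IsFamily`, `IsLisseFamily`, `ArtinVanishing`), the theorem of Smirnov that standard
conjecture D implies the Künneth conjecture, and continuity: morphisms of Chow motives over `K` come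
from some `U i`.

The idea of the proof, from `k` to `K`: over `k` the groups `Hom(𝟙, M)` of Chow motives embed into the
cohomology. By arguments with weights, homologically trivial endomorphisms of the mixed motives `π X`
(the cohomology of `U` with values in a Chow motive `X` over `U`) are nilpotent, and if the
cohomology of `X` is in degrees `≥ 0` then the elements of `Hom(𝟙, X)` are determined by their
cohomology classes. So homologically trivial endomorphisms of Chow motives over `K` are nilpotent,
and Murre's conjectures over `K` follow with D over `K` (`MP_5f0950_ag.IndependenceOfBaseField`). In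
the other direction the Frobenius kills the part of the Chow groups over `k` of degrees `< 0`.
-/

set_option autoImplicit false

open CategoryTheory Limits MonoidalCategory Pretriangulated Triangulated

universe w v u v' u'

namespace Pool.Agent.Results.MP_38de51_ag.RationalNumerical

open Pool.Agent.Y116.MT Pool.Agent.N209.CD Pool.Agent.N209.BD Pool.Agent.N209.BM
  Pool.Agent.N209.FF

/-- Rational and numerical equivalence coincide over the finite field `k` if and only if Murre's
conjectures and D hold over the extension field `K`; and then the filtration has length at most the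
transcendence degree. -/
theorem result
    -- the category `C` of motives over `k` and the class `W` of Chow motives
    {C : Type u} [Category.{v} C] [Preadditive C] [HasZeroObject C] [HasShift C ℤ]
    [∀ n : ℤ, (shiftFunctor C n).Additive] [Pretriangulated C] [IsTriangulated C]
    [MonoidalCategory C] [SymmetricCategory C] [TensorTriangulated C] [MonoidalPreadditive C]
    [RightRigidCategory C] [Linear ℚ C] [IsIdempotentComplete C]
    {W : ObjectProperty C} (hW : IsChowClass W)
    (hQ : ∀ e : 𝟙_ C ⟶ 𝟙_ C, ∃ q : ℚ, e = q • 𝟙 _)
    -- the category `C'` of motives over `K` and the class `W'` of Chow motives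
    {C' : Type u'} [Category.{v'} C'] [Preadditive C'] [HasZeroObject C'] [HasShift C' ℤ]
    [∀ n : ℤ, (shiftFunctor C' n).Additive] [Pretriangulated C'] [IsTriangulated C']
    [MonoidalCategory C'] [SymmetricCategory C'] [TensorTriangulated C'] [MonoidalPreadditive C']
    [RightRigidCategory C'] [Linear ℚ C'] [IsIdempotentComplete C']
    {W' : ObjectProperty C'} (hW' : IsChowClass W')
    -- the realisations and the Frobenius over `k`
    {E : Type w} [Field E] (R : Realisation C E) (R' : Realisation C' E)
    {q : ℝ} (hFr : Nonempty (Frobenius R W q))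
    -- standard conjecture D over `K` implies the Künneth conjecture over `K`
    (hC' : HomNum R' W' → Kunneth R' W')
    -- the base change functor
    (b : C ⥤ C') [b.Monoidal] [b.Additive] [b.Faithful] [b.CommShift ℤ]
    (hb : Nonempty (R.H ≅ b ⋙ R'.H)) (hbW : ∀ M, W M → W' (b.obj M))
    -- the motives over the varieties `U i`
    {I : Type u} (D : I → Type u) [∀ i, Category.{v} (D i)] [∀ i, Preadditive (D i)]
    [∀ i, Linear ℚ (D i)] [∀ i, MonoidalCategory (D i)] [∀ i, MonoidalPreadditive (D i)]
    [∀ i, RightRigidCategory (D i)] (P : ∀ i, ObjectProperty (D i))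
    (ρ : ∀ i, D i ⥤ C') [∀ i, (ρ i).Additive] [∀ i, (ρ i).Monoidal]
    (φ : ∀ i, C ⥤ D i) [∀ i, (φ i).Monoidal] (π : ∀ i, D i ⥤ C) [∀ i, (π i).Additive]
    (adj : ∀ i, φ i ⊣ π i) (τ : ∀ i, φ i ⋙ π i ⟶ 𝟭 C) (κ : ∀ i, φ i ⋙ ρ i ≅ b)
    (hF : ∀ i, IsFamily R R' W (P i) (ρ i) (φ i) (π i) (adj i) (τ i))
    (hL : ∀ i, IsLisseFamily R R' (P i) (ρ i) (φ i) (π i) (adj i))
    -- morphisms to the unit, morphisms from the unit and endomorphisms of Chow motives over `K`
    -- come from some `U i`
    (hcov : ∀ Y : C', W' Y → ∀ u : Y ⟶ 𝟙_ C', ∃ (i : I) (X : D i) (u₀ : X ⟶ 𝟙_ (D i))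
      (j : (ρ i).obj X ≅ Y), P i X ∧
        j.hom ≫ u = (ρ i).map u₀ ≫ Functor.OplaxMonoidal.η (ρ i))
    (hcov₂ : ∀ Y : C', W' Y → ∀ s : 𝟙_ C' ⟶ Y, ∃ (i : I) (X : D i) (s₀ : 𝟙_ (D i) ⟶ X)
      (j : (ρ i).obj X ≅ Y), P i X ∧
        s = Functor.LaxMonoidal.ε (ρ i) ≫ (ρ i).map s₀ ≫ j.hom)
    (hcov₃ : ∀ Y : C', W' Y → ∀ e : Y ⟶ Y, ∃ (i : I) (X : D i) (e₀ : X ⟶ X)
      (j : (ρ i).obj X ≅ Y), P i X ∧ j.hom ≫ e = (ρ i).map e₀ ≫ j.hom)
    -- cycles over `K` on Chow motives over `k` come from some `U i`
    (hcov' : ∀ M : C, W M → ∀ s : 𝟙_ C' ⟶ b.obj M, ∃ (i : I) (s₀ : 𝟙_ (D i) ⟶ (φ i).obj M),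
      s = Functor.LaxMonoidal.ε (ρ i) ≫ (ρ i).map s₀ ≫ (κ i).hom.app M) :
    (RatNum W ↔ Murre R' W' ∧ HomNum R' W') ∧
    -- the length of the filtration
    (RatNum W → ∀ r : ℕ, (∀ i, ArtinVanishing R R' (P i) (ρ i) (π i) r) →
      ∀ M : C', W' M → ∀ (s : Finset ℤ) (p : ℤ → (M ⟶ M)), IsCK R' s p →
        ∀ (ν : ℤ) (t : 𝟙_ C' ⟶ M), r < ν → InFil p ν t → t = 0) := by
  obtain ⟨F⟩ := hFr
  obtain ⟨hb⟩ := hb
  have hK := kunneth_of_frobenius F
  refine ⟨⟨?_, ?_⟩, ?_⟩
  · intro h
    have hD : HomNum R W := homNum_of_ratNum h
    have hi : Inj R W := inj_of_ratNum hQ h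
    have hr := regularOn_of_homNum hW hQ hD
    have hP := pos_of_inj hi
    have hN := nil_of_inj hW hi
    have hS := splits_of_kunneth hW hK hN
    have hD' : HomNum R' W' := homNum_of_homNumD hW'.dual
      (ascend hW.neg F.weights hW.unit (homNumD_of_homNum hW.dual hD) hF hcov)
    have hP' : Pos R' W' := pos_ascend hW F.weights hr hN hP hS (fun i => (hF i).weights) hL hcov₂
    have hN' : NilOn R' W' := nil_ascend hW F.weights hr hN (fun i => (hF i).weights) hL hcov₃
    exact ⟨murre_of_pos hW' hP' (fun M hM => exists_ck (hC' hD') hN' hM), hD'⟩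
  · rintro ⟨hM, hD'⟩
    have hD : HomNum R W := homNum_of_homNumD hW.dual
      (descend (homNumD_of_homNum hW'.dual hD') b hb hbW hF κ hcov')
    have hP' := pos_of_murre hW' hM
    have hN' : NilOn R' W' := nil_of_pos hW' hP'
      (splits_of_ck hW' fun M hM' => by
        obtain ⟨⟨s, p, hp, -, -⟩, -⟩ := hM M hM'
        exact ⟨s, p, hp⟩)
    have hN : NilOn R W := nil_descend b hb hbW hN'
    exact ratNum_of_inj (inj_of_pos F hN (pos_descend b hb hbW hP')
      (splits_of_kunneth hW hK hN)) hD
  · intro h r hA M hM s p hp ν t hν ht
    have hD : HomNum R W := homNum_of_ratNum h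
    have hi : Inj R W := inj_of_ratNum hQ h
    have hr := regularOn_of_homNum hW hQ hD
    have hN := nil_of_inj hW hi
    have hS := splits_of_kunneth hW hK hN
    have hc : CdLe R W 0 := fun N hN' h0 x => zero_of_neg F hN hN' (fun i hi => h0 i (by omega)) x
    have hc' : CdLe R' W' (0 + r) :=
      cd_ascend (adj := adj) hW F.weights hr hN hS hc (fun i => (hF i).weights) hA hcov₂
    rw [← Category.comp_id t, ← hp.tot, Preadditive.comp_sum]
    refine Finset.sum_eq_zero fun j _ => ?_
    rcases lt_or_ge (-ν) j with hj | hj
    · exact ht j hj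
    · obtain ⟨N, a, x, hN', hd, hax, hxa⟩ := exists_image hW' hM hp j
      rw [← hxa, ← Category.assoc, hc' N hN' (fun i hi => hd i (by omega)) (t ≫ x), zero_comp]

end Pool.Agent.Results.MP_38de51_ag.RationalNumerical
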