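import Mathlib
import Pool.Agent.N178.HX.Parts
import Pool.Agent.N178.MU.Murre

/-!
# Murre's conjectures for motives of small Hodge level

Let `X` be a complex abelian variety (`AV`, up to isogeny) in one of the following two classes.

(a) All simple factors of `X` are factors of an abelian variety `A` of dimension at most three (for
instance `X` is a power of `A`).

(b) There are finitely many CM types `T k`, divided into independent blocks, such that for each block
all CM types of the CM fields in this block are conjugate, or the total dimension of the block is at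
most three, or the block consists of all CM types of a Galois CM field of degree at most six; and
each simple factor of `X` is a factor of one of the abelian varieties with the CM types `T k`, or has
no complex multiplication and belongs to one of the classes in `Typ` below (of any dimension), where
an imaginary quadratic field which acts with two different multiplicities on the tangent space must
be the field of an elliptic curve of the first kind (fourfolds with such an action are excluded).

Let `M = (X, p)` be a direct summand of the Chow motive of `X`, and let `M = ⊕ M_m` be any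
Chow–Künneth decomposition, with `M_m = (X, P m)`, and Murre's filtration
`F^ν CH_i(M) = ⊕_(m ≥ 2 i + ν) CH_i(M_m)`.

First theorem, Murre's conjectures (B) and (D) for the part `M_m`: suppose that the Hodge numbers
`h^(s, t)` of `M` with `s + t = m` and `t ≥ i + 2` (or `s ≥ i + 2`) are zero. If `m < 2 i` then
`CH_i(M_m) = 0`; if `m = 2 i` then `CH_i(M_m)_hom = 0`. So (B) holds for `M` if all Hodge numbers
`h^(s, t)` of `M` with `|s - t| ≥ 5` are zero, and (D) holds if all Hodge numbers with `s + t` even
and `|s - t| ≥ 4` are zero.

Second theorem: if the Hodge level of `M` is at most two, i.e. if `h^(s, t) = 0` for `|s - t| ≥ 3`,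
then all of Murre's conjectures hold for `M`, and more: `F^0 CH_i(M) = CH_i(M)` (this is (B)),
`F^1 CH_i(M) = CH_i(M)_hom` (this gives (D)), `F^3 CH_i(M) = 0`, the filtration does not depend on the
Chow–Künneth decomposition (this is (C)), and it is functorial: all correspondences between two such
motives, for two abelian varieties `X` and `Y` of the classes (a), (b), respect the filtrations.
(Chow–Künneth decompositions of `M` exist, this is Murre's conjecture (A) and known here.)

The structures `ChowTheory` (`Pool.Agent.N178.BL.Defs`) and `Projectors` (`Pool.Agent.N178.MU.Defs`)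
collect the known properties of the Chow groups of complex abelian varieties which are used: the
formal properties of correspondences; Kimura's theorem that homologically trivial endomorphisms of
the motive are nilpotent; the semisimplicity of the category of motives of abelian varieties modulo
homological equivalence (Jannsen, Lieberman); the algebraic classes are a system `Sys` (Lefschetz,
Markman); the algebraicity of the isomorphisms `H^n(Y, ℚ) ≅ H_n(Y, ℚ)` given by a polarization
(Lieberman); the projectors of Deninger and Murre; Künnemann's isomorphism `h_n(X) ≅ h^n(X)` up to a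
twist, and Beauville's theorem that `CH^p(h^n(X)) = 0` for `p ≤ 1` and `n > 2 p`.
-/

namespace Pool.Agent.Results.MP_38de51_ag.SmallHodgeLevel

open Module NumberField Pool.Agent.Y90 Pool.Agent.R915
open Pool.Agent.H204R3.CM (IsCMType)
open Pool.Agent.W547.KB (CMPair CMAV single)
open Pool.Agent.W547.LN (SameType)
open Pool.Agent.N830.HC (av)
open Pool.Agent.N178.BL (ChowTheory)
open Pool.Agent.N178.MU (Projectors IsChowKunneth HodgeZero LevelTwo F)

/-- The classes of simple abelian varieties: dimension at most three; or the endomorphism algebra is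
an imaginary quadratic field of signature `(p, q)` with `p, q ≤ 3` (and trivial discriminant for
`(3, 3)`); or Albert type I or II of relative dimension at most three; or dimension five and
endomorphism algebra `ℚ`; or Albert type I or II, any dimension, with the largest possible Hodge
group. -/
def Typ (Y : AV) : Prop :=
  finrank ℚ Y.H ≤ 6 ∨ QuadMult Y ∨ RealMult Y ∨ FiveDim Y ∨ FullHodge Y

/-- Each simple factor `Y` of `X` is a factor of an abelian variety with one of the CM types `T k`; or
it has no complex multiplication, belongs to one of the classes in `Typ`, and if `ℚ(√-d)` acts on `Y`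
with two different multiplicities then `Y` is not a fourfold and the elliptic curve `E` with complex
multiplication by this field is a factor of an abelian variety with one of the CM types `T k`. -/
def HasFactorsIn {K : Type} (T : K → CMPair) (X : AV) : Prop :=
  ∀ Y, IsFactor Y X → (∃ k, IsFactor Y (av (single (T k)))) ∨ (¬ HasCMult Y ∧ Typ Y ∧
    ∀ d : ℚ, Unbalanced Y d → finrank ℚ Y.H ≠ 8 ∧
      ∃ k E, IsFactor E (av (single (T k))) ∧ finrank ℚ E.H = 2 ∧ Unbalanced E d)

/-- All CM types of the CM fields in the block `B` are conjugate, simultaneously: for each family of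
CM types `Ψ k` of the CM fields there is an automorphism of `ℂ` which takes `Ψ k` to the CM type
`T k`, for all `k` in `B`. -/
def AllConjugate {K : Type} (T : K → CMPair) (B : Set K) : Prop :=
  ∀ Ψ : ∀ k, Set ((T k).E →+* ℂ), (∀ k, IsCMType (Ψ k)) →
    ∃ σ : ℂ ≃+* ℂ, ∀ k ∈ B, ∀ φ, φ ∈ Ψ k ↔ (σ : ℂ →+* ℂ).comp φ ∈ (T k).Φ

/-- The CM fields of the block `B` are subfields of the Galois CM field `L`, and all CM types of `L`
occur. -/
def AllTypes {K : Type} (T : K → CMPair) (B : Set K) (L : Type) [Field L] [NumberField L]
    [IsCMField L] : Prop :=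
  IsGalois ℚ L ∧ (∀ k ∈ B, Nonempty ((T k).E →+* L)) ∧
    ∀ (Φ : Set (L →+* ℂ)) (hΦ : IsCMType Φ), ∃ k ∈ B, SameType ⟨L, Φ, hΦ⟩ (T k)

/-- The total dimension of the block is at most three. -/
def DimAtMostThree {K : Type} (T : K → CMPair) (B : Set K) : Prop :=
  ∃ F : Finset K, (∀ k, k ∈ F ↔ k ∈ B) ∧ ∑ k ∈ F, finrank ℚ (T k).E ≤ 6

/-- The blocks `{k | b k = j}` are independent: automorphisms of `ℂ` can be prescribed separately on
the complex embeddings of the CM fields of the different blocks. (The composita of the Galois
closures of the fields of the different blocks are linearly disjoint over `ℚ`.) -/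
def IsIndependent {K J : Type} (T : K → CMPair) (b : K → J) : Prop :=
  ∀ τ : J → (ℂ ≃+* ℂ), ∃ σ : ℂ ≃+* ℂ, ∀ k (φ : (T k).E →+* ℂ),
    (σ : ℂ →+* ℂ).comp φ = (τ (b k) : ℂ →+* ℂ).comp φ

/-- The condition on the block `B`. -/
def IsGoodBlock {K : Type} (T : K → CMPair) (B : Set K) : Prop :=
  AllConjugate T B ∨ (∃ (L : Type) (_ : Field L) (_ : NumberField L) (_ : IsCMField L),
    AllTypes T B L ∧ finrank ℚ L ≤ 6) ∨ DimAtMostThree T B

/-- The classes (a) and (b) of abelian varieties. -/
def IsGood (X : AV) : Prop :=
  (∃ A : AV, finrank ℚ A.H ≤ 6 ∧ ∀ Y, IsFactor Y X → IsFactor Y A) ∨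
    ∃ (K J : Type) (_ : Fintype K) (T : K → CMPair) (b : K → J), IsIndependent T b ∧
      (∀ j, IsGoodBlock T {k | b k = j}) ∧ HasFactorsIn T X

theorem ghc {C : ChowTheory} {X : AV} (hX : IsGood X) : Pool.Agent.N178.HX.GHC C.alg X := by
  rcases hX with ⟨A, hA, hX⟩ | ⟨K, J, _, T, b, hb, hj, hX⟩
  · exact Pool.Agent.N178.HX.pow3 Pool.Agent.N178.HX.t_MAINT Pool.Agent.N178.HX.t_COV
      Pool.Agent.N178.HX.t_POW A X hA hX C.alg
  · exact Pool.Agent.N178.HX.uncond' Pool.Agent.N178.HX.t_MAINT Pool.Agent.N178.HX.t_COV T b hb
      hj C.alg X hX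

/-- **Murre's conjectures (B) and (D) for the parts `M_m` of the direct summand `M = (X, p)` of the
Chow motive of `X` whose Hodge numbers `h^(s, t)` with `s ≥ i + 2` or `t ≥ i + 2` are zero, and all of
Murre's conjectures for `M` if the Hodge level of `M` is at most two.** -/
theorem result (C : ChowTheory) (K : Projectors C) (O : AV) (hO : finrank ℚ O.H = 0) (X : AV)
    (hX : IsGood X) (p : C.Co X X) (hp : C.IsMotive p) (P : ℕ → C.Co X X)
    (hP : IsChowKunneth p P) :
    (∀ (i : ℤ) (m : ℕ), m ≤ 2 * i →
      (∀ s t : ℕ, s + t = m → i + 2 ≤ s ∨ i + 2 ≤ t → HodgeZero p s t) →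
      ∀ z : C.Co O X, C.IsDeg i z → (m = 2 * i → ∀ ω, C.pb z ω = 0) → C.o (P m) z = 0) ∧
    (LevelTwo p → ∀ (i : ℤ) (z : C.Co O X), C.IsDeg i z → C.o p z = z →
      F p P i 0 z ∧ (F p P i 1 z ↔ ∀ ω, C.pb z ω = 0) ∧ (F p P i 3 z → z = 0) ∧
      (∀ P', IsChowKunneth p P' → ∀ ν, F p P i ν z ↔ F p P' i ν z) ∧
      ∀ (Y : AV) (q : C.Co Y Y) (Q : ℕ → C.Co Y Y), IsGood Y → C.IsMotive q → LevelTwo q →
        IsChowKunneth q Q → ∀ (r : ℤ) (f : C.Co X Y), C.IsDeg r f → ∀ ν, F p P i ν z →
        F q Q (i + r) ν (C.o q (C.o f z))) := by
  refine ⟨fun i m hm hH z hz h0 => Pool.Agent.N178.MU.vanish K (ghc hX) hO hP hm hH hz h0,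
    fun hH i z hz hpz => ?_⟩
  obtain ⟨h1, h2, h3, h4⟩ := Pool.Agent.N178.MU.murre K (ghc hX) hO hp hH hP hz hpz
  exact ⟨h1, h2, h3, h4, fun Y q Q hY hq hHq hQ r f hf ν hF =>
    Pool.Agent.N178.MU.functorial K (ghc hX) (ghc hY) hP hQ hq hH hHq hf hF⟩

end Pool.Agent.Results.MP_38de51_ag.SmallHodgeLevel
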